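import Mathlib

/-!
# MP_8766ea_co: the pointwise distance distribution does not determine planar clouds

We disprove the statement of Q1: there are two non-isometric clouds of `m = 10` points in the plane
with `PDD(C; 9) = PDD(C'; 9)`.

Both clouds lie in the triangular lattice. In the coordinates `(a, b) ↦ a (1, 0) + b (1/2, √3/2)`, in
which the squared length of `(a, b)` is `a² + a b + b²`, they are

* `C  = {(0,0), (3,0), (2,1), (0,2), (3,2), (4,2), (0,3), (1,3), (3,3), (4,4)}`,
* `C' = {(0,0), (3,0), (3,1), (0,2), (1,2), (4,2), (0,3), (2,3), (3,3), (4,4)}`.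

They were found by a computer search. That they are not isometric is seen as follows: there are no four
points of `C'` with the same mutual distances as the points `(2,1), (0,2), (0,3), (4,4)` of `C`.
-/

set_option autoImplicit false

namespace Pool.Agent.Results.MP_8766ea_co.PlanarPDDIncomplete

/-- The Euclidean plane. -/
abbrev Plane : Type := EuclideanSpace ℝ (Fin 2)

open scoped Classical in
/-- The row of the point `p` of the cloud `C`: the list of the distances from `p` to the other points
of `C`, in non-decreasing order. -/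
noncomputable def row (C : Finset Plane) (p : Plane) : List ℝ :=
  ((C.erase p).val.map fun q => dist p q).sort (· ≤ ·)

/-- The pointwise distance distribution `PDD(C; m - 1)` of a cloud of `m` points: the multiset of the
rows of all the points of `C`. -/
noncomputable def PDD (C : Finset Plane) : Multiset (List ℝ) :=
  C.val.map fun p => row C p

/-- Two clouds are isometric if an isometry of the plane maps one onto the other. -/
def Isometric (C C' : Finset Plane) : Prop :=
  ∃ f : Plane ≃ᵢ Plane, f '' (C : Set Plane) = (C' : Set Plane)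

/-- The quadratic form of the triangular lattice. -/
def N (x : ℤ × ℤ) : ℤ := x.1 ^ 2 + x.1 * x.2 + x.2 ^ 2

/-- The points of the triangular lattice. -/
noncomputable def φ (x : ℤ × ℤ) : Plane :=
  !₂[(x.1 : ℝ) + (x.2 : ℝ) / 2, (x.2 : ℝ) * (Real.sqrt 3 / 2)]

lemma dist_φ (x y : ℤ × ℤ) : dist (φ x) (φ y) = Real.sqrt ((N (x - y) : ℤ) : ℝ) := by
  rw [EuclideanSpace.dist_eq]
  congr 1
  rw [Fin.sum_univ_two]
  have h3 : Real.sqrt 3 ^ 2 = 3 := Real.sq_sqrt (by norm_num)
  simp only [φ, Real.dist_eq, sq_abs, N, Prod.fst_sub, Prod.snd_sub, Fin.isValue,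
    Matrix.cons_val_zero, Matrix.cons_val_one, Matrix.cons_val_fin_one]
  push_cast
  linear_combination (((x.2 : ℝ) - y.2) ^ 2 / 4) * h3

lemma N_nonneg (x : ℤ × ℤ) : 0 ≤ N x := by
  unfold N
  nlinarith [sq_nonneg (x.1 + x.2), sq_nonneg x.1, sq_nonneg x.2]

lemma N_eq_zero {x : ℤ × ℤ} (h : N x = 0) : x = 0 := by
  unfold N at h
  have h1 : x.1 = 0 := by
    by_contra h0
    have : 0 < x.1 ^ 2 := by positivity
    nlinarith [sq_nonneg (x.1 + 2 * x.2)]
  have h2 : x.2 = 0 := by
    rw [h1] at h
    simpa using h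
  exact Prod.ext h1 h2

lemma φ_injective : Function.Injective φ := by
  intro x y h
  have h1 : dist (φ x) (φ y) = 0 := by rw [h, dist_self]
  rw [dist_φ, Real.sqrt_eq_zero (by exact_mod_cast N_nonneg _)] at h1
  exact sub_eq_zero.mp (N_eq_zero (by exact_mod_cast h1))

/-- The lattice coordinates of the points of the first cloud. -/
def A : Finset (ℤ × ℤ) :=
  {(0, 0), (3, 0), (2, 1), (0, 2), (3, 2), (4, 2), (0, 3), (1, 3), (3, 3), (4, 4)}

/-- The lattice coordinates of the points of the second cloud. -/
def B : Finset (ℤ × ℤ) :=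
  {(0, 0), (3, 0), (3, 1), (0, 2), (1, 2), (4, 2), (0, 3), (2, 3), (3, 3), (4, 4)}

/-- The integral version of the multiset of the rows. -/
def rows (S : Finset (ℤ × ℤ)) : Multiset (Multiset ℤ) :=
  S.val.map fun p => (S.erase p).val.map fun q => N (p - q)

lemma rows_eq : rows A = rows B := by
  decide +kernel

/-- The cloud with given lattice coordinates. -/
noncomputable def cloud (S : Finset (ℤ × ℤ)) : Finset Plane := S.map ⟨φ, φ_injective⟩

lemma PDD_cloud (S : Finset (ℤ × ℤ)) :
    PDD (cloud S) = (rows S).map fun r => (r.map fun n : ℤ => Real.sqrt (n : ℝ)).sort (· ≤ ·) := by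
  classical
  unfold PDD cloud rows
  rw [Finset.map_val, Multiset.map_map, Multiset.map_map]
  apply Multiset.map_congr rfl
  intro p _
  have h : ((S.map ⟨φ, φ_injective⟩).erase (φ p)) = (S.erase p).map ⟨φ, φ_injective⟩ := by
    rw [Finset.map_erase]
    rfl
  simp only [Function.comp_apply, row, Function.Embedding.coeFn_mk]
  congr 1
  have h2 : ∀ T : Finset Plane, T = (S.erase p).map ⟨φ, φ_injective⟩ →
      Multiset.map (fun q => dist (φ p) q) T.val =
        Multiset.map (fun n : ℤ => Real.sqrt (n : ℝ)) (Multiset.map (fun q => N (p - q)) (S.erase p).val) := by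
    rintro T rfl
    rw [Finset.map_val, Multiset.map_map, Multiset.map_map]
    apply Multiset.map_congr rfl
    intro q _
    simp only [Function.comp_apply, Function.Embedding.coeFn_mk]
    exact dist_φ p q
  apply h2
  convert h

lemma no_four : ∀ a ∈ B, ∀ b ∈ B, N (a - b) = N ((2, 1) - (4, 4)) →
    ∀ c ∈ B, N (a - c) = N ((2, 1) - (0, 2)) → N (b - c) = N ((4, 4) - (0, 2)) →
    ∀ d ∈ B, N (a - d) = N ((2, 1) - (0, 3)) → N (b - d) = N ((4, 4) - (0, 3)) →
      N (c - d) ≠ N ((0, 2) - (0, 3)) := by
  decide +kernel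

lemma not_isometric : ¬ Isometric (cloud A) (cloud B) := by
  rintro ⟨f, hf⟩
  have key : ∀ x ∈ A, ∃ y ∈ B, f (φ x) = φ y := by
    intro x hx
    have h1 : f (φ x) ∈ (cloud B : Set Plane) := by
      rw [← hf]
      exact ⟨φ x, by
        simp only [cloud, Finset.coe_map, Set.mem_image, Finset.mem_coe]
        exact ⟨x, hx, rfl⟩, rfl⟩
    simp only [cloud, Finset.coe_map, Set.mem_image, Finset.mem_coe] at h1
    obtain ⟨y, hy, h⟩ := h1
    exact ⟨y, hy, h.symm⟩
  have hN : ∀ x y x' y' : ℤ × ℤ, f (φ x) = φ x' → f (φ y) = φ y' → N (x' - y') = N (x - y) := by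
    intro x y x' y' hx hy
    have h1 : dist (φ x') (φ y') = dist (φ x) (φ y) := by
      rw [← hx, ← hy, f.dist_eq]
    rw [dist_φ, dist_φ, Real.sqrt_inj (by exact_mod_cast N_nonneg _)
      (by exact_mod_cast N_nonneg _)] at h1
    exact_mod_cast h1
  obtain ⟨a, ha, ha'⟩ := key (2, 1) (by decide)
  obtain ⟨b, hb, hb'⟩ := key (4, 4) (by decide)
  obtain ⟨c, hc, hc'⟩ := key (0, 2) (by decide)
  obtain ⟨d, hd, hd'⟩ := key (0, 3) (by decide)
  exact no_four a ha b hb (hN _ _ _ _ ha' hb') c hc (hN _ _ _ _ ha' hc') (hN _ _ _ _ hb' hc')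
    d hd (hN _ _ _ _ ha' hd') (hN _ _ _ _ hb' hd') (hN _ _ _ _ hc' hd')

/-- **The pointwise distance distribution is not complete for planar clouds.** There are two clouds
`C` and `C'` of `10` points in the plane which have the same multiset of rows of distances and which
are not isometric. -/
theorem result : ∃ C C' : Finset Plane,
    C.card = 10 ∧ C'.card = 10 ∧ PDD C = PDD C' ∧ ¬ Isometric C C' := by
  refine ⟨cloud A, cloud B, ?_, ?_, ?_, not_isometric⟩
  · rw [cloud, Finset.card_map]
    decide
  · rw [cloud, Finset.card_map]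
    decide
  · rw [PDD_cloud, PDD_cloud, rows_eq]

end Pool.Agent.Results.MP_8766ea_co.PlanarPDDIncomplete
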